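import Pool.Agent.UMC.Triple
import Pool.Agent.UIL.Count
import Pool.Agent.P30.UnitIntervalG

/-!
# The number of members with a given `m`, and the number of all members
-/

set_option autoImplicit false

namespace Pool.Agent.UMC

open Pool.Agent.P30.UnitInterval UIL

theorem grow_conv {x z : ℕ} (hx : 32 ≤ x) (h : x ^ 6 ≤ z ^ 5) :
    (2 * x + 1) ^ 39 ≤ (2 * z + 1) ^ 38 := by
  have key : ((2 * x + 1) ^ 39) ^ 5 ≤ ((2 * z + 1) ^ 38) ^ 5 := by
    calc ((2 * x + 1) ^ 39) ^ 5 ≤ ((3 * x) ^ 39) ^ 5 := by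
          gcongr
          omega
      _ = 3 ^ 195 * x ^ 195 := by rw [← pow_mul, mul_pow]
      _ ≤ 2 ^ 190 * 32 ^ 33 * x ^ 195 := by
          gcongr
          norm_num
      _ ≤ 2 ^ 190 * x ^ 33 * x ^ 195 := by gcongr
      _ = 2 ^ 190 * (x ^ 6) ^ 38 := by ring
      _ ≤ 2 ^ 190 * (z ^ 5) ^ 38 := by gcongr
      _ = ((2 * z) ^ 38) ^ 5 := by ring
      _ ≤ ((2 * z + 1) ^ 38) ^ 5 := by
          gcongr
          omega
  exact (Nat.pow_le_pow_iff_left (by norm_num)).1 key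

/-- Two members with the same `m` and the same `a`, with nearly equal `b`. -/
theorem same_a {a b b' s s' m : ℕ} (h : Sol a b m s) (h' : Sol a b' m s') (hb : b ≤ b')
    (hn : 3000 * (b' - b) ≤ b) : b = b' := by
  rcases eq_or_lt_of_le hb with h1 | h1
  · exact h1
  · exfalso
    have e1 := h.eq
    have e2 := h'.eq
    have e3 := hs_add h.hab.le hb
    have h2 := hs_pos h1
    have h3 := hs_le hb
    have h4 : hs b b' < 1 := by
      refine lt_of_le_of_lt h3 ?_
      rw [div_lt_one (by positivity)]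
      have h5 : (b' : ℚ) - b = ((b' - b : ℕ) : ℚ) := by
        rw [Nat.cast_sub hb]
      rw [h5]
      have h6 : b' - b < b + 1 := by omega
      exact_mod_cast h6
    have h7 : ((s' : ℤ) : ℚ) - ((s : ℤ) : ℚ) = hs b b' := by
      push_cast
      linarith
    have h8 : ((s' - s : ℤ) : ℚ) = hs b b' := by
      push_cast
      push_cast at h7
      exact h7
    have h9 : (0 : ℚ) < ((s' - s : ℤ) : ℚ) := by rw [h8]; exact h2
    have h10 : ((s' - s : ℤ) : ℚ) < 1 := by rw [h8]; exact h4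
    have h11 : (0 : ℤ) < s' - s := by exact_mod_cast h9
    have h12 : (s' - s : ℤ) < 1 := by exact_mod_cast h10
    omega

theorem mult_aux : ∃ C : ℝ, 0 ≤ C ∧ ∀ X m : ℕ, 3 ≤ X → ∀ P : Finset (ℕ × ℕ),
    (∀ p ∈ P, p.2 ≤ X ∧ ∃ s, Sol p.1 p.2 m s) →
    (P.card : ℝ) ≤ C * Real.log (Real.log X) := by
  classical
  obtain ⟨B0, hB0⟩ := near
  obtain ⟨Bg, hBg⟩ := gap
  obtain ⟨A1, hA1⟩ := triple
  set B := max B0 Bg with hB
  set A := max A1 32 with hA
  have hL : 0 < Real.log ((39 : ℝ) / 38) := Real.log_pos (by norm_num)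
  have hl3 : 0 < Real.log (Real.log 3) := Real.log_pos one_lt_log_three
  have h7 : 0 < Real.log 2 := Real.log_pos (by norm_num)
  refine ⟨((B : ℝ) ^ 2 + 200 + A + 2 + 2 * Real.log 2 / Real.log ((39 : ℝ) / 38)) /
    Real.log (Real.log 3) + 2 / Real.log ((39 : ℝ) / 38), by positivity, ?_⟩
  intro X m hX P hP
  have hXr : (3 : ℝ) ≤ X := by exact_mod_cast hX
  have hlogX : Real.log 3 ≤ Real.log X := Real.log_le_log (by norm_num) hXr
  have hlogX0 : 0 < Real.log X := lt_of_lt_of_le (by linarith [one_lt_log_three]) hlogX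
  have hll : Real.log (Real.log 3) ≤ Real.log (Real.log X) :=
    Real.log_le_log (by linarith [one_lt_log_three]) hlogX
  -- the value of a member
  have hval : ∀ p ∈ P, ∃ s, Sol p.1 p.2 m s := fun p hp => (hP p hp).2
  choose! v hv using hval
  -- members with the same first coordinate
  have hinja : ∀ p ∈ P, ∀ p' ∈ P, B ≤ p.2 → B ≤ p'.2 → p.1 = p'.1 → p = p' := by
    intro p hp p' hp' hb hb' h
    have k1 := hv p hp
    have k2 := hv p' hp'
    rw [← h] at k2
    have hb0 : B0 ≤ p.2 := le_trans (le_max_left _ _) hb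
    have hb0' : B0 ≤ p'.2 := le_trans (le_max_left _ _) hb'
    rcases le_total p.2 p'.2 with h1 | h1
    · exact Prod.ext h (same_a k1 k2 h1 (hB0 _ _ _ _ _ _ _ k1 k2 hb0).2)
    · exact Prod.ext h (same_a k2 k1 h1 (hB0 _ _ _ _ _ _ _ k2 k1 hb0').2).symm
  -- the four parts
  set P1 := P.filter fun p => p.2 < B with hP1
  set P2 := P.filter fun p => B ≤ p.2 ∧ v p < 200 with hP2
  set P3 := P.filter fun p => B ≤ p.2 ∧ 200 ≤ v p ∧ p.1 < A with hP3
  set P4 := P.filter fun p => B ≤ p.2 ∧ 200 ≤ v p ∧ A ≤ p.1 with hP4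
  have hcover : P ⊆ P1 ∪ P2 ∪ P3 ∪ P4 := by
    intro p hp
    simp only [hP1, hP2, hP3, hP4, Finset.mem_union, Finset.mem_filter, hp, true_and]
    rcases lt_or_ge p.2 B with h1 | h1
    · exact Or.inl (Or.inl (Or.inl h1))
    · rcases lt_or_ge (v p) 200 with h2 | h2
      · exact Or.inl (Or.inl (Or.inr ⟨h1, h2⟩))
      · rcases lt_or_ge p.1 A with h3 | h3
        · exact Or.inl (Or.inr ⟨h1, h2, h3⟩)
        · exact Or.inr ⟨h1, h2, h3⟩
  have hc1 : P1.card ≤ B ^ 2 := by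
    have h1 : P1 ⊆ (Finset.range B) ×ˢ (Finset.range B) := by
      intro p hp
      rw [hP1, Finset.mem_filter] at hp
      have h2 := (hv p hp.1).hab
      rw [Finset.mem_product, Finset.mem_range, Finset.mem_range]
      omega
    have h2 := Finset.card_le_card h1
    rw [Finset.card_product, Finset.card_range] at h2
    rw [sq]
    exact h2
  have hc2 : P2.card ≤ 200 := by
    have h1 : Set.InjOn v (P2 : Set (ℕ × ℕ)) := by
      intro p hp p' hp' h
      rw [hP2, Finset.mem_coe, Finset.mem_filter] at hp hp'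
      have k1 := hv p hp.1
      have k2 := hv p' hp'.1
      rw [← h] at k2
      have hb0 : B0 ≤ p.2 := le_trans (le_max_left _ _) hp.2.1
      have hb0' : B0 ≤ p'.2 := le_trans (le_max_left _ _) hp'.2.1
      have hg : Bg ≤ p.2 := le_trans (le_max_right _ _) hp.2.1
      have hg' : Bg ≤ p'.2 := le_trans (le_max_right _ _) hp'.2.1
      rcases le_total p.2 p'.2 with h1 | h1
      · have := hBg _ _ _ _ _ _ _ hg k1 k2 h1 (hB0 _ _ _ _ _ _ _ k1 k2 hb0).2
        exact Prod.ext this.1 this.2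
      · have := hBg _ _ _ _ _ _ _ hg' k2 k1 h1 (hB0 _ _ _ _ _ _ _ k2 k1 hb0').2
        exact (Prod.ext this.1 this.2).symm
    have h2 : P2.image v ⊆ Finset.range 200 := by
      intro x hx
      rw [Finset.mem_image] at hx
      obtain ⟨p, hp, rfl⟩ := hx
      rw [hP2, Finset.mem_filter] at hp
      exact Finset.mem_range.2 hp.2.2
    have h3 := Finset.card_le_card h2
    rw [Finset.card_image_of_injOn h1, Finset.card_range] at h3
    exact h3
  have hc3 : P3.card ≤ A := by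
    have h1 : Set.InjOn (fun p : ℕ × ℕ => p.1) (P3 : Set (ℕ × ℕ)) := by
      intro p hp p' hp' h
      rw [hP3, Finset.mem_coe, Finset.mem_filter] at hp hp'
      exact hinja p hp.1 p' hp'.1 hp.2.1 hp'.2.1 h
    have h2 : P3.image (fun p : ℕ × ℕ => p.1) ⊆ Finset.range A := by
      intro x hx
      rw [Finset.mem_image] at hx
      obtain ⟨p, hp, rfl⟩ := hx
      rw [hP3, Finset.mem_filter] at hp
      exact Finset.mem_range.2 hp.2.2.2
    have h3 := Finset.card_le_card h2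
    rw [Finset.card_image_of_injOn h1, Finset.card_range] at h3
    exact h3
  have hinj4 : Set.InjOn (fun p : ℕ × ℕ => p.1) (P4 : Set (ℕ × ℕ)) := by
    intro p hp p' hp' h
    rw [hP4, Finset.mem_coe, Finset.mem_filter] at hp hp'
    exact hinja p hp.1 p' hp'.1 hp.2.1 hp'.2.1 h
  set S := P4.image (fun p : ℕ × ℕ => p.1) with hS
  have hcard : S.card = P4.card := Finset.card_image_of_injOn hinj4
  have hSmem : ∀ a ∈ S, A ≤ a ∧ ∃ b s, 200 ≤ s ∧ b ≤ X ∧ Sol a b m s := by
    intro a ha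
    rw [hS, Finset.mem_image] at ha
    obtain ⟨p, hp, rfl⟩ := ha
    rw [hP4, Finset.mem_filter] at hp
    exact ⟨hp.2.2.2, p.2, v p, hp.2.2.1, (hP p hp.1).1, hv p hp.1⟩
  have hS1 : ∀ x ∈ S, 1 ≤ x := by
    intro a ha
    have h1 := (hSmem a ha).1
    have h2 : 32 ≤ A := le_max_right _ _
    omega
  have hS3 : ∀ x ∈ S, ∀ y ∈ S, ∀ z ∈ S, x < y → y < z →
      (2 * x + 1) ^ 39 ≤ (2 * z + 1) ^ 38 := by
    intro x hx y hy z hz hxy hyz
    obtain ⟨k1, b1, s1, l1, -, hm1⟩ := hSmem x hx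
    obtain ⟨-, b2, s2, l2, -, hm2⟩ := hSmem y hy
    obtain ⟨-, b3, s3, l3, -, hm3⟩ := hSmem z hz
    exact grow_conv (le_trans (le_max_right _ _) k1)
      (hA1 z b3 s3 y b2 s2 x b1 s1 m hm3 hm2 hm1 l3 l2 l1 (le_trans (le_max_left _ _) k1) hxy hyz)
  have hScard : (S.card : ℝ) ≤
      2 + 2 * (Real.log 2 + Real.log (Real.log X)) / Real.log ((39 : ℝ) / 38) := by
    rcases Nat.eq_zero_or_pos S.card with h0 | h0
    · rw [h0]
      have : 0 ≤ 2 * (Real.log 2 + Real.log (Real.log X)) / Real.log ((39 : ℝ) / 38) := by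
        apply div_nonneg _ hL.le
        linarith
      push_cast
      linarith
    · obtain ⟨n, hn⟩ : ∃ n : ℕ, n = (S.card - 1) / 2 := ⟨_, rfl⟩
      obtain ⟨x, hx, hx2⟩ := card_growth n S hS1 hS3 (by omega)
      obtain ⟨-, b, s, -, hbX, hm⟩ := hSmem x hx
      have hxX : (x : ℝ) + 1 ≤ X := by
        have := hm.hab
        exact_mod_cast (by omega : x + 1 ≤ X)
      have h1 : Real.log (2 * (x : ℝ) + 1) ≤ 2 * Real.log X := by
        have h2 : Real.log (2 * (x : ℝ) + 1) ≤ Real.log ((X : ℝ) ^ 2) :=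
          Real.log_le_log (by positivity) (by nlinarith)
        rw [Real.log_pow] at h2
        push_cast at h2
        exact h2
      have h2 : ((39 : ℝ) / 38) ^ n ≤ 2 * Real.log X := hx2.trans h1
      have h3 := Real.log_le_log (by positivity) h2
      rw [Real.log_pow, Real.log_mul (by norm_num) hlogX0.ne'] at h3
      have h4 : (n : ℝ) ≤ (Real.log 2 + Real.log (Real.log X)) / Real.log ((39 : ℝ) / 38) := by
        rw [le_div_iff₀ hL]
        exact h3
      have h5 : (S.card : ℝ) ≤ 2 * n + 2 := by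
        have : S.card ≤ 2 * n + 2 := by omega
        exact_mod_cast this
      have h6 : 2 * (Real.log 2 + Real.log (Real.log X)) / Real.log ((39 : ℝ) / 38) =
          2 * ((Real.log 2 + Real.log (Real.log X)) / Real.log ((39 : ℝ) / 38)) := by ring
      rw [h6]
      linarith
  have hfin : (P.card : ℝ) ≤ (B : ℝ) ^ 2 + 200 + A +
      (2 + 2 * (Real.log 2 + Real.log (Real.log X)) / Real.log ((39 : ℝ) / 38)) := by
    rw [hcard] at hScard
    have h1 : P.card ≤ P1.card + P2.card + P3.card + P4.card := by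
      refine (Finset.card_le_card hcover).trans ?_
      refine (Finset.card_union_le _ _).trans ?_
      gcongr
      refine (Finset.card_union_le _ _).trans ?_
      gcongr
      exact Finset.card_union_le _ _
    have h2 : (P.card : ℝ) ≤ P1.card + P2.card + P3.card + P4.card := by exact_mod_cast h1
    have h3 : (P1.card : ℝ) ≤ (B : ℝ) ^ 2 := by exact_mod_cast hc1
    have h4 : (P2.card : ℝ) ≤ 200 := by exact_mod_cast hc2
    have h5 : (P3.card : ℝ) ≤ A := by exact_mod_cast hc3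
    linarith
  refine hfin.trans ?_
  set K : ℝ := (B : ℝ) ^ 2 + 200 + A + 2 + 2 * Real.log 2 / Real.log ((39 : ℝ) / 38) with hK
  have hK0 : 0 ≤ K := by positivity
  have h8 : K ≤ K / Real.log (Real.log 3) * Real.log (Real.log X) := by
    have : K / Real.log (Real.log 3) * Real.log (Real.log 3) ≤
        K / Real.log (Real.log 3) * Real.log (Real.log X) :=
      mul_le_mul_of_nonneg_left hll (by positivity)
    rw [div_mul_cancel₀ _ hl3.ne'] at this
    exact this
  have h9 : (B : ℝ) ^ 2 + 200 + A +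
      (2 + 2 * (Real.log 2 + Real.log (Real.log X)) / Real.log ((39 : ℝ) / 38)) =
      K + 2 / Real.log ((39 : ℝ) / 38) * Real.log (Real.log X) := by
    rw [hK]
    ring
  rw [h9, add_mul]
  linarith

theorem finite_mult (X m : ℕ) : {p : ℕ × ℕ | p.2 ≤ X ∧ ∃ s, Sol p.1 p.2 m s}.Finite := by
  refine ((Finset.range (X + 1)) ×ˢ (Finset.range (X + 1))).finite_toSet.subset ?_
  rintro p ⟨h1, s, h2⟩
  have h3 := h2.hab
  rw [Finset.mem_coe, Finset.mem_product, Finset.mem_range, Finset.mem_range]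
  omega

/-- For every `m` there are at most `C loglog X` members with `max I ≤ X`. -/
theorem mult : ∃ C : ℝ, ∀ X m : ℕ, 3 ≤ X →
    {p : ℕ × ℕ | p.2 ≤ X ∧ ∃ s, Sol p.1 p.2 m s}.Finite ∧
    ({p : ℕ × ℕ | p.2 ≤ X ∧ ∃ s, Sol p.1 p.2 m s}.ncard : ℝ) ≤ C * Real.log (Real.log X) := by
  obtain ⟨C, -, hC⟩ := mult_aux
  refine ⟨C, fun X m hX => ⟨finite_mult X m, ?_⟩⟩
  rw [Set.ncard_eq_toFinset_card _ (finite_mult X m)]
  refine hC X m hX _ fun p hp => ?_
  rw [Set.Finite.mem_toFinset] at hp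
  exact hp

/-- There are at most `C log X loglog X` members with `max I ≤ X`. -/
theorem total : ∃ C : ℝ, ∀ X : ℕ, 3 ≤ X →
    {p : ℕ × ℕ × ℕ | p.2.1 ≤ X ∧ ∃ s, Sol p.1 p.2.1 p.2.2 s}.Finite ∧
    ({p : ℕ × ℕ × ℕ | p.2.1 ≤ X ∧ ∃ s, Sol p.1 p.2.1 p.2.2 s}.ncard : ℝ) ≤
      C * (Real.log X * Real.log (Real.log X)) := by
  classical
  obtain ⟨C1, hC1⟩ := Pool.Agent.UFM.numberMax
  obtain ⟨C2, hC20, hC2⟩ := mult_aux
  refine ⟨|C1| * C2, fun X hX => ?_⟩
  obtain ⟨hfin, hcard⟩ := hC1 X (by omega)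
  set Mf := hfin.toFinset with hMf
  set U : Finset (ℕ × ℕ × ℕ) := Mf.biUnion fun m =>
    ((finite_mult X m).toFinset).image fun p => (p.1, p.2, m) with hU
  have hsub : {p : ℕ × ℕ × ℕ | p.2.1 ≤ X ∧ ∃ s, Sol p.1 p.2.1 p.2.2 s} ⊆ (U : Set (ℕ × ℕ × ℕ)) := by
    rintro ⟨a, b, m⟩ ⟨h1, s, h2⟩
    rw [hU, Finset.mem_coe, Finset.mem_biUnion]
    refine ⟨m, ?_, ?_⟩
    · rw [hMf, Set.Finite.mem_toFinset]
      exact ⟨a, b, s, h2, h1⟩
    · rw [Finset.mem_image]
      refine ⟨(a, b), ?_, rfl⟩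
      rw [Set.Finite.mem_toFinset]
      exact ⟨h1, s, h2⟩
  have hXr : (3 : ℝ) ≤ X := by exact_mod_cast hX
  have hlogX : Real.log 3 ≤ Real.log X := Real.log_le_log (by norm_num) hXr
  have hlogX0 : 0 < Real.log X := lt_of_lt_of_le (by linarith [one_lt_log_three]) hlogX
  have hl3 : 0 < Real.log (Real.log 3) := Real.log_pos one_lt_log_three
  have hll : Real.log (Real.log 3) ≤ Real.log (Real.log X) :=
    Real.log_le_log (by linarith [one_lt_log_three]) hlogX
  refine ⟨U.finite_toSet.subset hsub, ?_⟩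
  have h1 : ({p : ℕ × ℕ × ℕ | p.2.1 ≤ X ∧ ∃ s, Sol p.1 p.2.1 p.2.2 s}.ncard : ℝ) ≤ (U.card : ℝ) := by
    have := Set.ncard_le_ncard hsub U.finite_toSet
    rw [Set.ncard_coe_finset] at this
    exact_mod_cast this
  have h2 : (U.card : ℝ) ≤ ∑ m ∈ Mf, C2 * Real.log (Real.log X) := by
    have h3 : U.card ≤ ∑ m ∈ Mf, (((finite_mult X m).toFinset).image
        fun p : ℕ × ℕ => (p.1, p.2, m)).card := Finset.card_biUnion_le
    have h4 : (U.card : ℝ) ≤ ∑ m ∈ Mf, ((((finite_mult X m).toFinset).image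
        fun p : ℕ × ℕ => (p.1, p.2, m)).card : ℝ) := by exact_mod_cast h3
    refine h4.trans (Finset.sum_le_sum fun m _ => ?_)
    have h5 : ((((finite_mult X m).toFinset).image fun p : ℕ × ℕ => (p.1, p.2, m)).card : ℝ) ≤
        (((finite_mult X m).toFinset).card : ℝ) := by exact_mod_cast Finset.card_image_le
    refine h5.trans (hC2 X m hX _ fun p hp => ?_)
    rw [Set.Finite.mem_toFinset] at hp
    exact hp
  rw [Finset.sum_const, nsmul_eq_mul] at h2
  have h6 : (Mf.card : ℝ) ≤ |C1| * Real.log X := by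
    rw [Set.ncard_eq_toFinset_card _ hfin] at hcard
    refine hcard.trans ?_
    gcongr
    exact le_abs_self C1
  calc ({p : ℕ × ℕ × ℕ | p.2.1 ≤ X ∧ ∃ s, Sol p.1 p.2.1 p.2.2 s}.ncard : ℝ)
      ≤ (Mf.card : ℝ) * (C2 * Real.log (Real.log X)) := h1.trans h2
    _ ≤ |C1| * Real.log X * (C2 * Real.log (Real.log X)) := by
        refine mul_le_mul_of_nonneg_right h6 (mul_nonneg hC20 (by linarith))
    _ = |C1| * C2 * (Real.log X * Real.log (Real.log X)) := by ring

end Pool.Agent.UMC
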