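import Pool.Agent.UFM.Count

/-!
Numerators of the windows of the harmonic series.
-/

set_option autoImplicit false

namespace Pool.Agent.UMC

open Pool.Agent.P30.UnitInterval

/-- `w! (H w - H v)` -/
def N (v w : ℕ) : ℕ := ∑ k ∈ Finset.Ioc v w, w.factorial / k

theorem N_cast (v w : ℕ) : ((N v w : ℕ) : ℚ) = (w.factorial : ℚ) * hs v w := by
  unfold N hs
  rw [Nat.cast_sum, Finset.mul_sum]
  apply Finset.sum_congr rfl
  intro k hk
  rw [Finset.mem_Ioc] at hk
  have hd : k ∣ w.factorial := Nat.dvd_factorial (by omega) hk.2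
  have hk0 : (k : ℚ) ≠ 0 := by
    have : k ≠ 0 := by omega
    exact_mod_cast this
  rw [Nat.cast_div hd hk0]
  ring

theorem N_pos {v w : ℕ} (h : v < w) : 0 < N v w := by
  have h1 : (0 : ℚ) < ((N v w : ℕ) : ℚ) := by
    rw [N_cast]
    exact mul_pos (by exact_mod_cast Nat.factorial_pos w) (hs_pos h)
  exact_mod_cast h1

theorem N_le (v w : ℕ) : N v w ≤ w * w.factorial := by
  unfold N
  calc ∑ k ∈ Finset.Ioc v w, w.factorial / k ≤ ∑ k ∈ Finset.Ioc v w, w.factorial :=
        Finset.sum_le_sum fun k _ => Nat.div_le_self _ _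
    _ = (w - v) * w.factorial := by rw [Finset.sum_const, Nat.card_Ioc, smul_eq_mul]
    _ ≤ w * w.factorial := Nat.mul_le_mul_right _ (Nat.sub_le _ _)

end Pool.Agent.UMC
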