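import Pool.Agent.UMC.Def

/-!
The `p`-adic analysis of three members with the same `m`.
-/

set_option autoImplicit false

namespace Pool.Agent.UMC

open Pool.Agent.P30.UnitInterval

/-- `p q` is `p`-integral with residue `r` -/
def R (p : ℕ) (q : ℚ) (r : ZMod p) : Prop :=
  ∃ (D : ℕ) (z : ℤ), ¬ p ∣ D ∧ (D : ℚ) * p * q = z ∧ (z : ZMod p) = D * r

section

variable {p : ℕ} [hp : Fact p.Prime]

theorem R_zero : R p 0 0 := ⟨1, 0, by
  rw [Nat.dvd_one]; exact hp.out.one_lt.ne', by simp, by simp⟩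

theorem R_add {q q' : ℚ} {r r' : ZMod p} (h : R p q r) (h' : R p q' r') : R p (q + q') (r + r') := by
  obtain ⟨D, z, h1, h2, h3⟩ := h
  obtain ⟨D', z', h1', h2', h3'⟩ := h'
  refine ⟨D * D', D' * z + D * z', ?_, ?_, ?_⟩
  · intro h
    rcases (Nat.Prime.dvd_mul hp.out).1 h with h | h
    · exact h1 h
    · exact h1' h
  · push_cast
    rw [← h2, ← h2']
    ring
  · push_cast
    rw [h3, h3']
    ring

theorem R_neg {q : ℚ} {r : ZMod p} (h : R p q r) : R p (-q) (-r) := by
  obtain ⟨D, z, h1, h2, h3⟩ := h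
  refine ⟨D, -z, h1, ?_, ?_⟩
  · push_cast
    rw [← h2]
    ring
  · push_cast
    rw [h3]
    ring

theorem R_int {t : ℤ} {r : ZMod p} (h : R p (t : ℚ) r) : r = 0 := by
  obtain ⟨D, z, h1, h2, h3⟩ := h
  have h4 : z = (D : ℤ) * p * t := by exact_mod_cast h2.symm
  rw [h4] at h3
  push_cast at h3
  rw [CharP.cast_eq_zero (ZMod p) p, mul_zero, zero_mul] at h3
  have h5 : (D : ZMod p) ≠ 0 := by
    intro h
    exact h1 ((ZMod.natCast_eq_zero_iff D p).1 h)
  rcases mul_eq_zero.1 h3.symm with h | h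
  · exact absurd h h5
  · exact h

theorem R_unit {n : ℕ} (hn : n ≠ 0) (h : ¬ p ∣ n) : R p (1 / (n : ℚ)) 0 := by
  refine ⟨n, p, h, ?_, ?_⟩
  · have : (n : ℚ) ≠ 0 := by exact_mod_cast hn
    push_cast
    field_simp
  · simp

theorem R_mul {k : ℕ} (h : ¬ p ∣ k) : R p (1 / ((k * p : ℕ) : ℚ)) ((k : ZMod p)⁻¹) := by
  refine ⟨k, 1, h, ?_, ?_⟩
  · have hk : (k : ℚ) ≠ 0 := by
      have : k ≠ 0 := by rintro rfl; exact h (dvd_zero p)
      exact_mod_cast this
    have hp0 : (p : ℚ) ≠ 0 := by exact_mod_cast hp.out.ne_zero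
    push_cast
    field_simp
  · have h5 : (k : ZMod p) ≠ 0 := by
      intro h'
      exact h ((ZMod.natCast_eq_zero_iff k p).1 h')
    rw [mul_inv_cancel₀ h5]
    simp

/-- sum of inverses mod `p` -/
noncomputable def S (p : ℕ) (x y : ℕ) : ZMod p := ∑ k ∈ Finset.Ioc x y, (k : ZMod p)⁻¹

theorem S_add {x y z : ℕ} (h1 : x ≤ y) (h2 : y ≤ z) : S p x y + S p y z = S p x z :=
  Finset.sum_Ioc_consecutive _ h1 h2

theorem S_self (x : ℕ) : S p x x = 0 := by simp [S]

theorem S_succ (x : ℕ) : S p x (x + 1) = ((x + 1 : ℕ) : ZMod p)⁻¹ := by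
  unfold S
  rw [Finset.sum_Ioc_succ_top (le_refl x), Finset.Ioc_self, Finset.sum_empty, zero_add]

theorem R_hs {x y : ℕ} (h : x ≤ y) (hk : ∀ n ∈ Finset.Ioc x y, ¬ p ^ 2 ∣ n) :
    R p (hs x y) (S p (x / p) (y / p)) := by
  induction y, h using Nat.le_induction with
  | base =>
    rw [S_self]
    have : hs x x = 0 := by simp [hs]
    rw [this]
    exact R_zero
  | succ y hxy ih =>
    have ih' := ih (fun n hn => hk n (by rw [Finset.mem_Ioc] at hn ⊢; omega))
    have e : hs x (y + 1) = hs x y + 1 / ((y + 1 : ℕ) : ℚ) := by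
      unfold hs
      rw [Finset.sum_Ioc_succ_top hxy]
    rw [e]
    have hsq := hk (y + 1) (by rw [Finset.mem_Ioc]; omega)
    by_cases hd : p ∣ y + 1
    · have h1 : (y + 1) / p = y / p + 1 := Nat.succ_div_of_dvd hd
      obtain ⟨k, hk'⟩ := hd
      have hkp : y + 1 = k * p := by rw [hk', mul_comm]
      have hk2 : ¬ p ∣ k := by
        rintro ⟨j, rfl⟩
        exact hsq ⟨j, by rw [hk']; ring⟩
      have hkv : k = y / p + 1 := by
        rw [← h1, hk', Nat.mul_div_cancel_left _ hp.out.pos]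
      have hr := R_mul hk2
      rw [← hkp] at hr
      have h2 : S p (x / p) ((y + 1) / p) = S p (x / p) (y / p) + ((k : ZMod p)⁻¹) := by
        rw [h1, ← S_add (Nat.div_le_div_right hxy) (Nat.le_succ _), Nat.succ_eq_add_one, S_succ, ← hkv]
      rw [h2]
      exact R_add ih' hr
    · have h1 : (y + 1) / p = y / p := Nat.succ_div_of_not_dvd hd
      have hr := R_unit (p := p) (n := y + 1) (by omega) hd
      have := R_add ih' hr
      rw [add_zero] at this
      rw [h1]
      exact this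

/-- no multiple of `p ^ 2` in the interval between the maxima -/
theorem no_sq {x y u w : ℕ} {t : ℤ} (hy : y < p ^ 2) (huw : w - u < p ^ 2)
    (hrel : hs x y + hs u w = t ∨ hs x y - hs u w = t) : ∀ n ∈ Finset.Ioc u w, ¬ p ^ 2 ∣ n := by
  intro n0 hn0 hd
  have hn0' := hn0
  rw [Finset.mem_Ioc] at hn0'
  have hv0 : 2 ≤ padicValNat p n0 := (padicValNat_dvd_iff_le (by omega)).1 hd
  have hnorm : padicNorm p (hs u w) = (p : ℚ) ^ (padicValNat p n0) := by
    apply norm_hs_of_unique hn0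
    intro n hn hne
    have hn' := hn
    rw [Finset.mem_Ioc] at hn'
    by_contra hc
    push Not at hc
    have hd2 : p ^ 2 ∣ n := (padicValNat_dvd_iff_le (by omega)).2 (le_trans hv0 hc)
    rcases lt_or_gt_of_ne hne with h | h
    · have h1 : p ^ 2 ∣ n0 - n := Nat.dvd_sub hd hd2
      have := Nat.le_of_dvd (by omega) h1
      omega
    · have h1 : p ^ 2 ∣ n - n0 := Nat.dvd_sub hd2 hd
      have := Nat.le_of_dvd (by omega) h1
      omega
  have hp1 : (1 : ℚ) < p := by exact_mod_cast hp.out.one_lt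
  have hxy : padicNorm p (hs x y) < (p : ℚ) ^ 2 := by
    by_contra hc
    push Not at hc
    obtain ⟨n, hn, hv⟩ := exists_of_norm_hs hc
    rw [Finset.mem_Ioc] at hn
    have := Nat.le_of_dvd (by omega) ((padicValNat_dvd_iff_le (p := p) (by omega : n ≠ 0)).2 hv)
    omega
  have ht : padicNorm p (t : ℚ) < (p : ℚ) ^ 2 := by
    have h1 := padicNorm.of_int (p := p) t
    have h2 : (1 : ℚ) < (p : ℚ) ^ 2 := one_lt_pow₀ hp1 (by norm_num)
    linarith
  have hge : (p : ℚ) ^ 2 ≤ padicNorm p (hs u w) := by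
    rw [hnorm]
    exact pow_le_pow_right₀ hp1.le hv0
  have hlt : padicNorm p (hs u w) < (p : ℚ) ^ 2 := by
    rcases hrel with h | h
    · have e : hs u w = (t : ℚ) + -(hs x y) := by rw [← h]; ring
      rw [e]
      refine lt_of_le_of_lt padicNorm.nonarchimedean (max_lt ht ?_)
      rw [padicNorm.neg]
      exact hxy
    · have e : hs u w = hs x y + -(t : ℚ) := by rw [← h]; ring
      rw [e]
      refine lt_of_le_of_lt padicNorm.nonarchimedean (max_lt hxy ?_)
      rw [padicNorm.neg]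
      exact ht
  exact absurd hge (not_le.2 hlt)

theorem dvd_N {v w : ℕ} (hw : w < p) (h : S p v w = 0) : p ∣ N v w := by
  rw [← ZMod.natCast_eq_zero_iff]
  unfold N
  rw [Nat.cast_sum]
  have : ∀ k ∈ Finset.Ioc v w, ((w.factorial / k : ℕ) : ZMod p) = (w.factorial : ZMod p) * (k : ZMod p)⁻¹ := by
    intro k hk
    rw [Finset.mem_Ioc] at hk
    have hd : k ∣ w.factorial := Nat.dvd_factorial (by omega) hk.2
    have hk0 : (k : ZMod p) ≠ 0 := by
      intro h'
      have := Nat.le_of_dvd (by omega) ((ZMod.natCast_eq_zero_iff k p).1 h')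
      omega
    rw [eq_mul_inv_iff_mul_eq₀ hk0]
    exact_mod_cast congrArg (Nat.cast : ℕ → ZMod p) (Nat.div_mul_cancel hd)
  rw [Finset.sum_congr rfl this, ← Finset.mul_sum]
  have h2 : ∑ k ∈ Finset.Ioc v w, (k : ZMod p)⁻¹ = 0 := h
  rw [h2, mul_zero]

theorem S_neg {x y : ℕ} (hx : x ≤ y) (hy : (y : ZMod p) = -2) :
    S p x y = -S p 1 (y - x + 1) := by
  obtain ⟨M, rfl⟩ : ∃ M, y = x + M := ⟨y - x, by omega⟩
  have e : x + M - x + 1 = M + 1 := by omega
  rw [e]
  unfold S
  rw [← Finset.sum_neg_distrib]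
  refine Finset.sum_bij (fun k _ => x + M + 2 - k) ?_ ?_ ?_ ?_
  · intro k hk
    rw [Finset.mem_Ioc] at hk ⊢
    omega
  · intro k hk k' hk' h
    rw [Finset.mem_Ioc] at hk hk'
    omega
  · intro j hj
    rw [Finset.mem_Ioc] at hj
    exact ⟨x + M + 2 - j, by rw [Finset.mem_Ioc]; omega, by omega⟩
  · intro k hk
    rw [Finset.mem_Ioc] at hk
    rw [← inv_neg, Nat.cast_sub (by omega)]
    congr 1
    rw [Nat.cast_add (x + M) 2, hy]
    push_cast
    ring

theorem S_pos {x y : ℕ} (hx : x ≤ y) (hy : (x : ZMod p) = 1) :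
    S p x y = S p 1 (y - x + 1) := by
  obtain ⟨M, rfl⟩ : ∃ M, y = x + M := ⟨y - x, by omega⟩
  have e : x + M - x + 1 = M + 1 := by omega
  rw [e]
  unfold S
  refine Finset.sum_bij (fun k _ => k - x + 1) ?_ ?_ ?_ ?_
  · intro k hk
    rw [Finset.mem_Ioc] at hk ⊢
    omega
  · intro k hk k' hk' h
    rw [Finset.mem_Ioc] at hk hk'
    omega
  · intro j hj
    rw [Finset.mem_Ioc] at hj
    exact ⟨x + j - 1, by rw [Finset.mem_Ioc]; omega, by omega⟩
  · intro k hk
    rw [Finset.mem_Ioc] at hk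
    congr 1
    rw [Nat.cast_add, Nat.cast_sub (by omega), hy]
    push_cast
    ring

end

/-- relation for two members with the same `m` -/
theorem rel {a b s a' b' s' m : ℕ} (h : Sol a b m s) (h' : Sol a' b' m s') (ha : a' ≤ a) (hab : a ≤ b') :
    (b ≤ b' → hs a' a + hs b b' = ((s' : ℤ) - s : ℤ)) ∧ (b' ≤ b → hs a' a - hs b' b = ((s' : ℤ) - s : ℤ)) := by
  have e1 := h.eq
  have e2 := h'.eq
  have hb := h.hab
  have h1 : hs a' a + hs a b' = hs a' b' := hs_add ha hab
  push_cast
  constructor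
  · intro hbb
    have h2 : hs a b + hs b b' = hs a b' := hs_add hb.le hbb
    linarith
  · intro hbb
    have h2 : hs a b' + hs b' b = hs a b := hs_add hab hbb
    linarith

theorem key {a1 b1 s1 a2 b2 s2 a3 b3 s3 m p : ℕ} (h1 : Sol a1 b1 m s1) (h2 : Sol a2 b2 m s2)
    (h3 : Sol a3 b3 m s3) (hp : p.Prime) (ha3 : a3 < p) (hp1 : a2 < 2 * p) (hp2 : 5 * p ≤ 3 * a2)
    (h12 : 27 * a2 ≤ 10 * a1) (hsq : a1 < p ^ 2) (hj1 : b2 - b3 < p) (hj2 : b3 - b2 < p)
    (hj3 : 20 * (b1 - b2) ≤ a1) (hj4 : 20 * (b2 - b1) ≤ a1) (ha12 : a1 ≤ b2) (ha23 : a2 ≤ b3) :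
    ∃ v w, v < w ∧ w ≤ a1 / p ∧ p ∣ N v w := by
  have hfact : Fact p.Prime := ⟨hp⟩
  have hp0 : 0 < p := hp.pos
  have hpsq : p ^ 2 = p * p := sq p
  have hpp : p ≤ p ^ 2 := by rw [hpsq]; exact Nat.le_mul_of_pos_left p hp0
  have hw3 : a3 / p = 0 := Nat.div_eq_of_lt ha3
  have hw2 : a2 / p = 1 := by
    rw [Nat.div_eq_iff hp0]
    omega
  obtain ⟨w, hw⟩ : ∃ w, w = a1 / p := ⟨_, rfl⟩
  have hw1 : p * w ≤ a1 := by rw [hw]; exact Nat.mul_div_le a1 p
  have hw1' : a1 < p * (w + 1) := by rw [hw]; exact Nat.lt_mul_div_succ a1 hp0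
  have hwp : w < p := by
    rw [hw, Nat.div_lt_iff_lt_mul hp0, ← hpsq]
    exact hsq
  have h45 : 9 * p ≤ 2 * a1 := by omega
  have hw4 : 4 ≤ w := by
    by_contra hc
    push Not at hc
    have : p * (w + 1) ≤ p * 4 := Nat.mul_le_mul_left p (by omega)
    omega
  obtain ⟨β1, hβ1⟩ : ∃ β, β = b1 / p := ⟨_, rfl⟩
  obtain ⟨β2, hβ2⟩ : ∃ β, β = b2 / p := ⟨_, rfl⟩
  obtain ⟨β3, hβ3⟩ : ∃ β, β = b3 / p := ⟨_, rfl⟩
  have l1 : p * β1 ≤ b1 := by rw [hβ1]; exact Nat.mul_div_le b1 p
  have l1' : b1 < p * (β1 + 1) := by rw [hβ1]; exact Nat.lt_mul_div_succ b1 hp0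
  have l2 : p * β2 ≤ b2 := by rw [hβ2]; exact Nat.mul_div_le b2 p
  have l2' : b2 < p * (β2 + 1) := by rw [hβ2]; exact Nat.lt_mul_div_succ b2 hp0
  have l3 : p * β3 ≤ b3 := by rw [hβ3]; exact Nat.mul_div_le b3 p
  have l3' : b3 < p * (β3 + 1) := by rw [hβ3]; exact Nat.lt_mul_div_succ b3 hp0
  have ha21 : a2 ≤ a1 := by omega
  have ha32 : a3 ≤ a2 := by omega
  have hone : S p 0 1 = 1 := by
    have := S_succ (p := p) 0
    rw [zero_add] at this
    rw [this]
    simp
  -- windows without multiples of `p ^ 2`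
  have q1 : ∀ n ∈ Finset.Ioc a3 a2, ¬ p ^ 2 ∣ n := by
    intro n hn hd
    rw [Finset.mem_Ioc] at hn
    have := Nat.le_of_dvd (by omega) hd
    omega
  have q2 : ∀ n ∈ Finset.Ioc a2 a1, ¬ p ^ 2 ∣ n := by
    intro n hn hd
    rw [Finset.mem_Ioc] at hn
    have := Nat.le_of_dvd (by omega) hd
    omega
  have r1 := R_hs (p := p) ha32 q1
  have r2 := R_hs (p := p) ha21 q2
  rw [hw3, hw2, hone] at r1
  rw [hw2, ← hw] at r2
  -- the class of `β2`
  have hβ : (β2 : ZMod p) = -2 ∨ (β2 : ZMod p) = 1 := by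
    obtain ⟨u1, u2⟩ := rel h2 h3 ha32 ha23
    rcases Nat.le_total b2 b3 with h | h
    · have e := u1 h
      have q3 := no_sq (p := p) (x := a3) (y := a2) (u := b2) (w := b3) (by omega) (by omega) (Or.inl e)
      have r3 := R_add r1 (R_hs h q3)
      rw [e] at r3
      have e2 := R_int r3
      rw [← hβ2, ← hβ3] at e2
      have hle : β2 ≤ β3 := by rw [hβ2, hβ3]; exact Nat.div_le_div_right h
      have hne : β3 ≠ β2 := by
        rintro rfl
        rw [S_self, add_zero] at e2
        exact one_ne_zero e2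
      have hlt : β3 < β2 + 2 := by
        by_contra hc
        push Not at hc
        have : p * (β2 + 2) ≤ p * β3 := Nat.mul_le_mul_left p hc
        have e3 : p * (β2 + 2) = p * (β2 + 1) + p := by ring
        omega
      have h3' : β3 = β2 + 1 := by omega
      rw [h3', S_succ] at e2
      left
      have e3 : ((β2 + 1 : ℕ) : ZMod p)⁻¹ = -1 := by
        rw [add_comm] at e2
        exact eq_neg_of_add_eq_zero_left e2
      have e4 : ((β2 + 1 : ℕ) : ZMod p) = -1 := by
        have := congrArg (fun x : ZMod p => x⁻¹) e3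
        simp only [inv_inv, inv_neg, inv_one] at this
        exact this
      push_cast at e4
      have : (β2 : ZMod p) = (β2 : ZMod p) + 1 - 1 := by ring
      rw [this, e4]
      ring
    · have e := u2 h
      have q3 := no_sq (p := p) (x := a3) (y := a2) (u := b3) (w := b2) (by omega) (by omega) (Or.inr e)
      have r3 := R_add r1 (R_neg (R_hs h q3))
      rw [← sub_eq_add_neg, e] at r3
      have e2 := R_int r3
      rw [← hβ2, ← hβ3] at e2
      have hle : β3 ≤ β2 := by rw [hβ2, hβ3]; exact Nat.div_le_div_right h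
      have hne : β3 ≠ β2 := by
        rintro rfl
        rw [S_self, neg_zero, add_zero] at e2
        exact one_ne_zero e2
      have hlt : β2 < β3 + 2 := by
        by_contra hc
        push Not at hc
        have : p * (β3 + 2) ≤ p * β2 := Nat.mul_le_mul_left p hc
        have e3 : p * (β3 + 2) = p * (β3 + 1) + p := by ring
        omega
      have h3' : β2 = β3 + 1 := by omega
      rw [h3', S_succ] at e2
      right
      have e3 : ((β3 + 1 : ℕ) : ZMod p)⁻¹ = 1 := by
        have : ((β3 + 1 : ℕ) : ZMod p)⁻¹ = 1 - (1 + -((β3 + 1 : ℕ) : ZMod p)⁻¹) := by ring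
        rw [this, e2, sub_zero]
      rw [h3']
      have := congrArg (fun x : ZMod p => x⁻¹) e3
      simp only [inv_inv, inv_one] at this
      exact this
  -- the pair `(1, 2)`
  obtain ⟨u1, u2⟩ := rel h1 h2 ha21 ha12
  have hbig : ∀ M : ℕ, (M = β1 - β2 ∨ M = β2 - β1) → M + 1 < w := by
    intro M hM
    by_contra hc
    push Not at hc
    have c1 : p * (w + 1) ≤ p * (M + 2) := Nat.mul_le_mul_left p (by omega)
    have c2 : a1 < p * (M + 2) := by omega
    have hM3 : 3 ≤ M := by
      by_contra hc2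
      push Not at hc2
      have : p * (M + 2) ≤ p * 4 := Nat.mul_le_mul_left p (by omega)
      omega
    have c3 : 20 * (p * (M - 1)) < a1 := by
      rcases hM with hM | hM
      · have e1 : β1 = β2 + 1 + (M - 1) := by omega
        have e2 : p * β1 = p * (β2 + 1) + p * (M - 1) := by rw [e1]; ring
        have e3 : b2 + p * (M - 1) < b1 := by omega
        omega
      · have e1 : β2 = β1 + 1 + (M - 1) := by omega
        have e2 : p * β2 = p * (β1 + 1) + p * (M - 1) := by rw [e1]; ring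
        have e3 : b1 + p * (M - 1) < b2 := by omega
        omega
    obtain ⟨j, rfl⟩ : ∃ j, M = j + 3 := ⟨M - 3, by omega⟩
    have e4 : p * (j + 3 + 2) = p * j + 5 * p := by ring
    have e5 : p * (j + 3 - 1) = p * j + 2 * p := by
      rw [show j + 3 - 1 = j + 2 by omega]; ring
    omega
  have hle12 : ∀ M : ℕ, M + 1 < w → S p 1 w = S p 1 (M + 1) → ∃ v w', v < w' ∧ w' ≤ a1 / p ∧ p ∣ N v w' := by
    intro M hM hS
    refine ⟨M + 1, w, hM, hw.le, dvd_N hwp ?_⟩
    have := S_add (p := p) (x := 1) (y := M + 1) (z := w) (by omega) (by omega)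
    rw [hS] at this
    have e : S p (M + 1) w = S p 1 (M + 1) + S p (M + 1) w - S p 1 (M + 1) := by ring
    rw [e, this, sub_self]
  have hzero : S p 1 w = -1 → ∃ v w', v < w' ∧ w' ≤ a1 / p ∧ p ∣ N v w' := by
    intro hS
    refine ⟨0, w, by omega, hw.le, dvd_N hwp ?_⟩
    have := S_add (p := p) (x := 0) (y := 1) (z := w) (by omega) (by omega)
    rw [← this, hone, hS]
    ring
  have hnone : S p 1 w = 0 → ∃ v w', v < w' ∧ w' ≤ a1 / p ∧ p ∣ N v w' := by
    intro hS
    exact ⟨1, w, by omega, hw.le, dvd_N hwp hS⟩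
  rcases Nat.le_total b1 b2 with h | h
  · have e := u1 h
    have q3 := no_sq (p := p) (x := a2) (y := a1) (u := b1) (w := b2) hsq (by omega) (Or.inl e)
    have r3 := R_add r2 (R_hs h q3)
    rw [e] at r3
    have e2 := R_int r3
    rw [← hβ2, ← hβ1] at e2
    have hle : β1 ≤ β2 := by rw [hβ2, hβ1]; exact Nat.div_le_div_right h
    rcases hβ with hβ | hβ
    · rw [S_neg hle hβ] at e2
      exact hle12 (β2 - β1) (hbig _ (Or.inr rfl)) (by
        have : S p 1 w = S p 1 w + -S p 1 (β2 - β1 + 1) + S p 1 (β2 - β1 + 1) := by ring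
        rw [this, e2, zero_add])
    · rcases Nat.lt_or_ge (β2 - β1) 2 with hM | hM
      · rcases Nat.eq_zero_or_pos (β2 - β1) with h0 | h0
        · have : β1 = β2 := by omega
          rw [this, S_self, add_zero] at e2
          exact hnone e2
        · have : β2 = β1 + 1 := by omega
          rw [this, S_succ, ← this, hβ, inv_one] at e2
          exact hzero (eq_neg_of_add_eq_zero_left e2)
      · exfalso
        have hd : p ∣ β2 - 1 := by
          rw [← ZMod.natCast_eq_zero_iff, Nat.cast_sub (by omega), hβ]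
          simp
        obtain ⟨j, hj⟩ := hd
        apply q3 ((β2 - 1) * p)
        · rw [Finset.mem_Ioc]
          constructor
          · have : p * (β1 + 1) ≤ p * (β2 - 1) := Nat.mul_le_mul_left p (by omega)
            rw [mul_comm]
            omega
          · have : p * (β2 - 1) ≤ p * β2 := Nat.mul_le_mul_left p (by omega)
            rw [mul_comm]
            omega
        · exact ⟨j, by rw [hj]; ring⟩
  · have e := u2 h
    have q3 := no_sq (p := p) (x := a2) (y := a1) (u := b2) (w := b1) hsq (by omega) (Or.inr e)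
    have r3 := R_add r2 (R_neg (R_hs h q3))
    rw [← sub_eq_add_neg, e] at r3
    have e2 := R_int r3
    rw [← hβ2, ← hβ1] at e2
    have hle : β2 ≤ β1 := by rw [hβ2, hβ1]; exact Nat.div_le_div_right h
    rcases hβ with hβ | hβ
    · rcases Nat.lt_or_ge (β1 - β2) 2 with hM | hM
      · rcases Nat.eq_zero_or_pos (β1 - β2) with h0 | h0
        · have : β1 = β2 := by omega
          rw [this, S_self, neg_zero, add_zero] at e2
          exact hnone e2
        · have h3' : β1 = β2 + 1 := by omega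
          have e4 : ((β2 + 1 : ℕ) : ZMod p) = -1 := by
            push_cast
            rw [hβ]
            ring
          rw [h3', S_succ, e4, inv_neg, inv_one, neg_neg] at e2
          exact hzero (eq_neg_of_add_eq_zero_left e2)
      · exfalso
        have hd : p ∣ β2 + 2 := by
          rw [← ZMod.natCast_eq_zero_iff]
          push_cast
          rw [hβ]
          ring
        obtain ⟨j, hj⟩ := hd
        apply q3 ((β2 + 2) * p)
        · rw [Finset.mem_Ioc]
          constructor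
          · have : p * (β2 + 1) ≤ p * (β2 + 2) := Nat.mul_le_mul_left p (by omega)
            rw [mul_comm]
            omega
          · have : p * (β2 + 2) ≤ p * β1 := Nat.mul_le_mul_left p (by omega)
            rw [mul_comm]
            omega
        · exact ⟨j, by rw [hj]; ring⟩
    · rw [S_pos hle hβ] at e2
      exact hle12 (β1 - β2) (hbig _ (Or.inl rfl)) (by
        have : S p 1 w = S p 1 w + -S p 1 (β1 - β2 + 1) + S p 1 (β1 - β2 + 1) := by ring
        rw [this, e2, zero_add])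

end Pool.Agent.UMC
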