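import Pool.Agent.UIM.Main
import Pool.Agent.UMC.Def

set_option autoImplicit false

/-!
If every prime in `(x / 2, 3 x / 5]` divides one of the numbers `N v w`, `v < w ≤ T`, then
`x ≤ T ^ 5`.
-/

namespace Pool.Agent.UMC

open Finset Filter

theorem psi_small (ε : ℝ) (hε : 0 < ε) :
    ∃ B : ℕ, ∀ b : ℕ, B ≤ b → |Chebyshev.psi b - b| ≤ ε * b := by
  obtain ⟨C, hC, h⟩ := Pool.Agent.UIM.psi_pnt'
  have hlog : Tendsto (fun b : ℕ => Real.log (b : ℝ)) atTop atTop :=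
    Real.tendsto_log_atTop.comp tendsto_natCast_atTop_atTop
  obtain ⟨B, hB⟩ := eventually_atTop.mp (hlog.eventually_ge_atTop (C / ε))
  refine ⟨max B 2, fun b hb => ?_⟩
  have h1 := hB b ((le_max_left _ _).trans hb)
  have h2 : 2 ≤ b := (le_max_right _ _).trans hb
  have h3 : (2 : ℝ) ≤ b := by exact_mod_cast h2
  have h4 : 0 < Real.log (b : ℝ) := Real.log_pos (by linarith)
  refine (h b h2).trans ?_
  rw [← mul_div_assoc, div_le_iff₀ h4]
  rw [div_le_iff₀ hε] at h1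
  have h5 : C * (b : ℝ) ≤ Real.log b * ε * b := mul_le_mul_of_nonneg_right h1 (by linarith)
  linarith

theorem sqrt_log_small (ε : ℝ) (hε : 0 < ε) :
    ∃ B : ℕ, ∀ b : ℕ, B ≤ b → 2 * √(b : ℝ) * Real.log b ≤ ε * b := by
  have h1 : Tendsto (fun x : ℝ => Real.log x / x ^ (1 / 2 : ℝ)) atTop (nhds 0) :=
    (isLittleO_log_rpow_atTop (by norm_num : (0 : ℝ) < 1 / 2)).tendsto_div_nhds_zero
  have h2 : Tendsto (fun b : ℕ => Real.log (b : ℝ) / (b : ℝ) ^ (1 / 2 : ℝ)) atTop (nhds 0) :=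
    h1.comp tendsto_natCast_atTop_atTop
  obtain ⟨B, hB⟩ := eventually_atTop.mp (h2.eventually_le_const (by positivity : (0 : ℝ) < ε / 2))
  refine ⟨max B 1, fun b hb => ?_⟩
  have h3 := hB b ((le_max_left _ _).trans hb)
  have h4 : 1 ≤ b := (le_max_right _ _).trans hb
  have h5 : (1 : ℝ) ≤ b := by exact_mod_cast h4
  have h6 : 0 < √(b : ℝ) := Real.sqrt_pos.mpr (by linarith)
  rw [← Real.sqrt_eq_rpow, div_le_iff₀ h6] at h3
  have h7 : √(b : ℝ) * √(b : ℝ) = b := Real.mul_self_sqrt (by linarith)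
  calc 2 * √(b : ℝ) * Real.log b ≤ 2 * √(b : ℝ) * (ε / 2 * √(b : ℝ)) :=
        mul_le_mul_of_nonneg_left h3 (by positivity)
    _ = ε * (√(b : ℝ) * √(b : ℝ)) := by ring
    _ = ε * b := by rw [h7]

theorem theta_nat (b : ℕ) : Chebyshev.theta (b : ℝ) =
    ∑ p ∈ Ioc 0 b, if p.Prime then Real.log (p : ℝ) else 0 := by
  rw [Chebyshev.theta, Nat.floor_natCast, sum_filter]

theorem sum_primes_ge : ∃ A0 : ℕ, ∀ x : ℕ, A0 ≤ x →
    (x : ℝ) / 20 ≤ ∑ p ∈ (Ioc (x / 2) (3 * x / 5)).filter Nat.Prime, Real.log (p : ℝ) := by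
  obtain ⟨B1, h1⟩ := psi_small (1 / 100) (by norm_num)
  obtain ⟨B2, h2⟩ := sqrt_log_small (1 / 100) (by norm_num)
  refine ⟨2 * B1 + 2 * B2 + 100, fun x hx => ?_⟩
  have hM1 := h1 (3 * x / 5) (by omega)
  have hM2 := h2 (3 * x / 5) (by omega)
  have hL1 := h1 (x / 2) (by omega)
  have hM3 := Chebyshev.psi_sub_theta_le (x := ((3 * x / 5 : ℕ) : ℝ)) (by
    have : 1 ≤ 3 * x / 5 := by omega
    exact_mod_cast this)
  have hL3 := Chebyshev.theta_le_psi ((x / 2 : ℕ) : ℝ)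
  rw [abs_le] at hM1 hL1
  have hM : (3 : ℝ) * x / 5 - 1 ≤ ((3 * x / 5 : ℕ) : ℝ) := by
    have : 3 * x ≤ 5 * (3 * x / 5) + 4 := by omega
    have h : (3 : ℝ) * x ≤ 5 * ((3 * x / 5 : ℕ) : ℝ) + 4 := by exact_mod_cast this
    linarith
  have hL : ((x / 2 : ℕ) : ℝ) ≤ x / 2 := by
    have : 2 * (x / 2) ≤ x := by omega
    have h : (2 : ℝ) * ((x / 2 : ℕ) : ℝ) ≤ x := by exact_mod_cast this
    linarith
  have hx' : (100 : ℝ) ≤ x := by
    have : 100 ≤ x := by omega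
    exact_mod_cast this
  have hdiff : ∑ p ∈ (Ioc (x / 2) (3 * x / 5)).filter Nat.Prime, Real.log (p : ℝ) =
      Chebyshev.theta ((3 * x / 5 : ℕ) : ℝ) - Chebyshev.theta ((x / 2 : ℕ) : ℝ) := by
    rw [theta_nat, theta_nat, sum_filter, eq_sub_iff_add_eq, add_comm,
      Finset.sum_Ioc_consecutive _ (Nat.zero_le _) (by omega)]
  rw [hdiff]
  linarith [hM1.1, hL1.2]

theorem N_leT {v w T : ℕ} (h : w ≤ T) : N v w ≤ T ^ (T + 1) := by
  have h1 : N v w ≤ ∑ k ∈ Ioc v w, T ^ T := by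
    rw [N]
    refine Finset.sum_le_sum fun k _ => ?_
    calc w.factorial / k ≤ w.factorial := Nat.div_le_self _ _
      _ ≤ T.factorial := Nat.factorial_le h
      _ ≤ T ^ T := Nat.factorial_le_pow T
  rw [sum_const, Nat.card_Ioc, smul_eq_mul] at h1
  calc N v w ≤ (w - v) * T ^ T := h1
    _ ≤ T * T ^ T := Nat.mul_le_mul_right _ (by omega)
    _ = T ^ (T + 1) := by ring

theorem many : ∃ A0 : ℕ, ∀ x T : ℕ, A0 ≤ x →
    (∀ p : ℕ, p.Prime → x < 2 * p → 5 * p ≤ 3 * x → ∃ v w, v < w ∧ w ≤ T ∧ p ∣ N v w) →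
    x ≤ T ^ 5 := by
  obtain ⟨A0, h0⟩ := sum_primes_ge
  refine ⟨max A0 (80 ^ 5 + 1), fun x T hx h => ?_⟩
  have h1 := h0 x ((le_max_left _ _).trans hx)
  have hx2 : 80 ^ 5 + 1 ≤ x := (le_max_right _ _).trans hx
  have hx3 : (0 : ℝ) < x := by
    have : 0 < x := by omega
    exact_mod_cast this
  set S := (Ioc (x / 2) (3 * x / 5)).filter Nat.Prime with hS
  set Q := ∏ w ∈ range (T + 1), ∏ v ∈ range w, N v w with hQ
  have hQ0 : 0 < Q := by
    rw [hQ]
    refine Finset.prod_pos fun w _ => Finset.prod_pos fun v hv => N_pos (mem_range.mp hv)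
  have hdvd : ∏ p ∈ S, p ∣ Q := by
    refine Finset.prod_primes_dvd _ (fun p hp => (mem_filter.mp hp).2.prime) fun p hp => ?_
    rw [hS, mem_filter, mem_Ioc] at hp
    obtain ⟨v, w, hvw, hw, hd⟩ := h p hp.2 (by omega) (by omega)
    rw [hQ]
    exact hd.trans ((Finset.dvd_prod_of_mem (fun v => N v w) (mem_range.mpr hvw)).trans
      (Finset.dvd_prod_of_mem (fun w => ∏ v ∈ range w, N v w) (mem_range.mpr (by omega))))
  have hle : ∏ p ∈ S, p ≤ Q := Nat.le_of_dvd hQ0 hdvd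
  have hle' : ((∏ p ∈ S, (p : ℝ)) : ℝ) ≤ Q := by
    rw [← Nat.cast_prod]
    exact Nat.cast_le.mpr hle
  have hpos : ∀ p ∈ S, (0 : ℝ) < p := fun p hp => by
    exact_mod_cast (mem_filter.mp hp).2.pos
  have hlog : ∑ p ∈ S, Real.log (p : ℝ) ≤ Real.log Q := by
    rw [← Real.log_prod (fun p hp => (hpos p hp).ne')]
    exact Real.log_le_log (Finset.prod_pos hpos) hle'
  rcases Nat.eq_zero_or_pos T with hT | hT
  · exfalso
    have hQ1 : Q = 1 := by
      rw [hQ, hT]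
      simp
    rw [hQ1, Nat.cast_one, Real.log_one] at hlog
    linarith
  · have hQle : Q ≤ ((T ^ (T + 1)) ^ T) ^ (T + 1) := by
      calc Q ≤ ∏ _w ∈ range (T + 1), (T ^ (T + 1)) ^ T := by
            rw [hQ]
            refine Finset.prod_le_prod' (fun w hw => ?_)
            have hw' : w ≤ T := by
              have := mem_range.mp hw
              omega
            calc ∏ v ∈ range w, N v w ≤ ∏ _v ∈ range w, T ^ (T + 1) :=
                  Finset.prod_le_prod' (fun v _ => N_leT hw')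
              _ = (T ^ (T + 1)) ^ w := by rw [prod_const, card_range]
              _ ≤ (T ^ (T + 1)) ^ T := Nat.pow_le_pow_right (Nat.one_le_pow _ _ hT) hw'
        _ = _ := by rw [prod_const, card_range]
    have hTr : (1 : ℝ) ≤ T := by exact_mod_cast hT
    have hQle' : (Q : ℝ) ≤ (((T : ℝ) ^ (T + 1)) ^ T) ^ (T + 1) := by exact_mod_cast hQle
    have hQr : (0 : ℝ) < Q := by exact_mod_cast hQ0
    have h2 : Real.log Q ≤ 4 * (T : ℝ) ^ 4 := by
      calc Real.log Q ≤ Real.log ((((T : ℝ) ^ (T + 1)) ^ T) ^ (T + 1)) :=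
            Real.log_le_log hQr hQle'
        _ = ((T : ℝ) + 1) * (T * (((T : ℝ) + 1) * Real.log T)) := by
            rw [Real.log_pow, Real.log_pow, Real.log_pow]
            push_cast
            ring
        _ ≤ (T + T) * (T * ((T + T) * T)) := by
            have h3 : Real.log (T : ℝ) ≤ T := Real.log_le_self (by linarith)
            have h4 : 0 ≤ Real.log (T : ℝ) := Real.log_nonneg hTr
            gcongr
        _ = 4 * (T : ℝ) ^ 4 := by ring
    have h3 : (x : ℝ) ≤ 80 * (T : ℝ) ^ 4 := by linarith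
    have h4 : x ≤ 80 * T ^ 4 := by exact_mod_cast h3
    by_contra hcon
    push Not at hcon
    rcases Nat.lt_or_ge T 80 with h5 | h5
    · have h6 : T ^ 4 ≤ 79 ^ 4 := Nat.pow_le_pow_left (by omega) 4
      omega
    · have h6 : 80 * T ^ 4 ≤ T ^ 5 := by
        calc 80 * T ^ 4 ≤ T * T ^ 4 := Nat.mul_le_mul_right _ h5
          _ = T ^ 5 := by ring
      omega

end Pool.Agent.UMC
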