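import Pool.Agent.UIM.Main
import Pool.Agent.UFM.Count

/-!
Members with the same `m`: the right end points are nearly equal, `MP_08f38f_nt`.
-/

set_option autoImplicit false

namespace Pool.Agent.UMC

open Finset Pool.Agent.P30.UnitInterval

lemma exists_size : ∃ K : ℕ, 2 ≤ K ∧ ∀ a b m s : ℕ, K ≤ b → Sol a b m s →
    |Real.log m - b| ≤ (b : ℝ) / 10000 := by
  obtain ⟨C, hC⟩ := UIM.size
  refine ⟨⌈Real.exp (10000 * |C|)⌉₊ + 2, by omega, ?_⟩
  intro a b m s hb h
  have hb2 : 2 ≤ b := by omega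
  have h1 := hC a b m s hb2 h
  have hbR : (2 : ℝ) ≤ b := by exact_mod_cast hb2
  have hlog : 10000 * |C| ≤ Real.log b := by
    rw [Real.le_log_iff_exp_le (by linarith)]
    calc Real.exp (10000 * |C|) ≤ (⌈Real.exp (10000 * |C|)⌉₊ : ℝ) := Nat.le_ceil _
      _ ≤ b := by exact_mod_cast (by omega)
  have hlpos : 0 < Real.log b := Real.log_pos (by linarith)
  have hb0 : (0 : ℝ) ≤ b := by linarith
  have h3 : C * (b / Real.log b) ≤ |C| * (b / Real.log b) :=
    mul_le_mul_of_nonneg_right (le_abs_self C) (by positivity)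
  have h4 : |C| * (b / Real.log b) ≤ b / 10000 := by
    rw [← mul_div_assoc, div_le_div_iff₀ hlpos (by norm_num)]
    nlinarith [mul_le_mul_of_nonneg_left hlog hb0]
  linarith

lemma log_m_le {a b m s : ℕ} (h : Sol a b m s) : Real.log m ≤ 6 * b := by
  have h0 : 0 < m := h.hm
  have h1 : m ≤ Nat.lcmUpto b := Nat.le_of_dvd (Nat.lcmUpto_pos b) (UIM.m_dvd h)
  have h2 : Real.log m ≤ Chebyshev.psi b := by
    rw [Chebyshev.psi_eq_log_lcmUpto]
    apply Real.log_le_log
    · exact_mod_cast h0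
    · exact_mod_cast h1
  have hb0 : (0 : ℝ) ≤ b := Nat.cast_nonneg b
  have h3 := Chebyshev.psi_le_const_mul_self (x := (b : ℝ)) hb0
  have h4 := UIM.log_four_le
  have h5 : (Real.log 4 + 4) * (b : ℝ) ≤ 6 * (b : ℝ) := by
    apply mul_le_mul_of_nonneg_right _ hb0
    linarith
  linarith

theorem near : ∃ B0 : ℕ, ∀ a b s a' b' s' m : ℕ, Sol a b m s → Sol a' b' m s' → B0 ≤ b →
    3000 * (b - b') ≤ b ∧ 3000 * (b' - b) ≤ b := by
  obtain ⟨K, hK2, hK⟩ := exists_size
  refine ⟨12 * K, ?_⟩
  intro a b s a' b' s' m h h' hb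
  have h1 := hK a b m s (by omega) h
  have h2 := log_m_le h'
  have hbR : (12 * K : ℝ) ≤ b := by exact_mod_cast hb
  have hb0 : (0 : ℝ) ≤ b := Nat.cast_nonneg b
  rw [abs_le] at h1
  have h4 : (K : ℝ) ≤ b' := by linarith
  have h5 : K ≤ b' := by exact_mod_cast h4
  have h6 := hK a' b' m s' h5 h'
  rw [abs_le] at h6
  constructor
  · rcases Nat.le_total b b' with hle | hle
    · rw [Nat.sub_eq_zero_of_le hle]
      omega
    · have hleR : (b' : ℝ) ≤ b := by exact_mod_cast hle
      have : ((3000 * (b - b') : ℕ) : ℝ) ≤ (b : ℝ) := by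
        push_cast [Nat.cast_sub hle]
        linarith
      exact_mod_cast this
  · rcases Nat.le_total b' b with hle | hle
    · rw [Nat.sub_eq_zero_of_le hle]
      omega
    · have hleR : (b : ℝ) ≤ b' := by exact_mod_cast hle
      have : ((3000 * (b' - b) : ℕ) : ℝ) ≤ (b : ℝ) := by
        push_cast [Nat.cast_sub hle]
        linarith
      exact_mod_cast this

/-- a prime larger than `a` and than `w - u` divides no integer of `(u, w]` -/
lemma not_dvd {a' a u w p : ℕ} {z : ℤ} (heq : hs u w = z + hs a' a ∨ hs u w = z - hs a' a)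
    (hp : p.Prime) (hpa : a < p) (hpk : w - u < p) : ∀ n ∈ Finset.Ioc u w, ¬ p ∣ n := by
  intro n hn hd
  have : Fact p.Prime := ⟨hp⟩
  have h1 := norm_hs_eq hp hpk hn hd
  have h2 : padicNorm p (hs a' a) ≤ 1 := by
    unfold hs
    apply padicNorm.sum_le'
    · intro k hk
      rw [Finset.mem_Ioc] at hk
      rw [norm_one_div (by omega), padicValNat.eq_zero_of_not_dvd, pow_zero]
      intro hd'
      have := Nat.le_of_dvd (by omega) hd'
      omega
    · norm_num
  have h3 : padicNorm p (hs u w) ≤ 1 := by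
    rcases heq with h | h
    · rw [h]
      exact padicNorm.nonarchimedean.trans (max_le (padicNorm.of_int z) h2)
    · rw [h]
      exact padicNorm.sub.trans (max_le (padicNorm.of_int z) h2)
  rw [Finset.mem_Ioc] at hn
  have h4 : 1 ≤ padicValNat p n := one_le_padicValNat_of_dvd (by omega) hd
  rw [h1] at h3
  have h5 : (1 : ℚ) < (p : ℚ) ^ (padicValNat p n) :=
    one_lt_pow₀ (by exact_mod_cast hp.one_lt) (by omega)
  linarith

lemma choose_le {a' a u w : ℕ} {z : ℤ} (heq : hs u w = z + hs a' a ∨ hs u w = z - hs a' a)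
    (huw : u < w) : w.choose (w - u) ≤ w ^ Nat.primeCounting (max a (w - u)) := by
  have hw0 : 0 < w := by omega
  have h1 : w.choose (w - u) ∣ smo (max a (w - u)) w := by
    rw [← Nat.factorization_prime_le_iff_dvd (Nat.choose_pos (Nat.sub_le w u)).ne'
      (smo_pos _ _).ne']
    intro p hp
    rcases Nat.lt_or_ge (max a (w - u)) p with hpk | hpk
    · have hpa : a < p := lt_of_le_of_lt (le_max_left _ _) hpk
      have hpk' : w - u < p := lt_of_le_of_lt (le_max_right _ _) hpk
      rw [factorization_choose_eq huw.le hp hpk', Nat.factorization_eq_zero_of_not_dvd]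
      · exact Nat.zero_le _
      · intro hd
        obtain ⟨n, hn, hdn⟩ := (hp.prime.dvd_finsetProd_iff _).mp hd
        exact not_dvd heq hp hpa hpk' n hn hdn
    · have h2 := smo_factorization (w := w) hp hpk
      have h3 := Nat.factorization_choose_le_log (p := p) (n := w) (k := w - u)
      omega
  exact (Nat.le_of_dvd (smo_pos _ _) h1).trans (smo_le hw0)

lemma log_ineq {a' a u w : ℕ} {z : ℤ} (heq : hs u w = z + hs a' a ∨ hs u w = z - hs a' a)
    (huw : u < w) (hu : 0 < u) : ((w - u : ℕ) : ℝ) * (Real.log u - Real.log ((w - u : ℕ) : ℝ)) ≤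
      (Nat.primeCounting (max a (w - u)) : ℝ) * Real.log w := by
  have h3 : u ^ (w - u) ≤ (w - u) ^ (w - u) * w ^ Nat.primeCounting (max a (w - u)) :=
    (pow_le_choose' huw.le).trans (Nat.mul_le_mul_left _ (choose_le heq huw))
  have hk : 0 < w - u := by omega
  have hw : 0 < w := by omega
  generalize w - u = k at *
  have h4 : (u : ℝ) ^ k ≤ (k : ℝ) ^ k * (w : ℝ) ^ Nat.primeCounting (max a k) := by
    exact_mod_cast h3
  have huR : (0 : ℝ) < u := by exact_mod_cast hu
  have hkR : (0 : ℝ) < k := by exact_mod_cast hk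
  have hwR : (0 : ℝ) < w := by exact_mod_cast hw
  have h5 := Real.log_le_log (by positivity) h4
  rw [Real.log_pow, Real.log_mul (by positivity) (by positivity), Real.log_pow,
    Real.log_pow] at h5
  rw [mul_sub]
  linarith

/-- bounds for the number of primes -/
lemma pi_bounds {k : ℕ} (hk : ⌈Real.exp 152⌉₊ + 2 ≤ k) :
    (Nat.primeCounting k : ℝ) * Real.log k ≤ 3.8 * k ∧ 40 * (Nat.primeCounting k : ℝ) ≤ k := by
  have hk2 : 2 ≤ k := by omega
  have hk1 : (1 : ℝ) ≤ (k : ℝ) := by exact_mod_cast (by omega : 1 ≤ k)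
  have h1 := pi_mul_log hk2
  have h2 := sqrt_mul_log_le hk1
  have h3 : Real.exp 152 ≤ (k : ℝ) := by
    calc Real.exp 152 ≤ (⌈Real.exp 152⌉₊ : ℝ) := Nat.le_ceil _
      _ ≤ k := by exact_mod_cast (by omega)
  have h4 : (152 : ℝ) ≤ Real.log k := by
    rw [Real.le_log_iff_exp_le (by linarith)]
    exact h3
  have h5 : (Nat.primeCounting k : ℝ) * 152 ≤ (Nat.primeCounting k : ℝ) * Real.log k :=
    mul_le_mul_of_nonneg_left h4 (by positivity)
  constructor <;> linarith

lemma core {a' a u w : ℕ} {z : ℤ} (heq : hs u w = z + hs a' a ∨ hs u w = z - hs a' a)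
    (huw : u < w) (h2999 : 2999 * (w - u) ≤ u) (hA : ⌈Real.exp 152⌉₊ + 2 ≤ a)
    (hT : 198 ≤ Real.log u - Real.log a) : 20 * (w - u) ≤ a := by
  have hu : 0 < u := by omega
  have h := log_ineq heq huw hu
  have hk : 0 < w - u := by omega
  have hwu : w = u + (w - u) := by omega
  generalize hkdef : w - u = k at *
  have huR : (0 : ℝ) < u := by exact_mod_cast hu
  have hkR : (1 : ℝ) ≤ k := by exact_mod_cast hk
  have haR : (1 : ℝ) ≤ a := by exact_mod_cast (by omega : 1 ≤ a)
  have hwR : (w : ℝ) = u + k := by exact_mod_cast hwu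
  have h2999R : 2999 * (k : ℝ) ≤ u := by exact_mod_cast h2999
  have hlogw : Real.log w ≤ Real.log u + 0.001 := by
    have hw0 : (0 : ℝ) < w := by rw [hwR]; linarith
    have h1 := Real.log_le_sub_one_of_pos (x := (w : ℝ) / u) (by positivity)
    rw [Real.log_div hw0.ne' huR.ne'] at h1
    have h2 : (w : ℝ) / u ≤ 1.001 := by
      rw [div_le_iff₀ huR, hwR]
      linarith
    linarith
  rcases Nat.lt_or_ge k a with hka | hka
  · -- `y = a`
    rw [max_eq_left hka.le] at h
    obtain ⟨p1, p2⟩ := pi_bounds hA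
    have hkaR : (k : ℝ) ≤ a := by exact_mod_cast hka.le
    have hlk : Real.log k ≤ Real.log a := Real.log_le_log (by linarith) hkaR
    set T : ℝ := Real.log u - Real.log a with hTdef
    set P : ℝ := (Nat.primeCounting a : ℝ) with hP
    have hP0 : 0 ≤ P := Nat.cast_nonneg _
    have e1 : (k : ℝ) * T ≤ k * (Real.log u - Real.log k) :=
      mul_le_mul_of_nonneg_left (by linarith) (by linarith)
    have e2 : P * Real.log w ≤ P * (T + 0.001 + Real.log a) :=
      mul_le_mul_of_nonneg_left (by linarith) hP0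
    have e3 : P * (T + 0.001) ≤ (a : ℝ) / 40 * (T + 0.001) :=
      mul_le_mul_of_nonneg_right (by linarith) (by linarith)
    have e4 : (k : ℝ) * T ≤ (a : ℝ) / 40 * (T + 0.001) + 3.8 * a := by
      have : P * (T + 0.001 + Real.log a) = P * (T + 0.001) + P * Real.log a := by ring
      linarith
    have e5 : (k : ℝ) * T ≤ (a : ℝ) / 20 * T := by nlinarith
    have e6 : (k : ℝ) ≤ (a : ℝ) / 20 := le_of_mul_le_mul_right e5 (by linarith)
    have e7 : ((20 * k : ℕ) : ℝ) ≤ (a : ℝ) := by
      push_cast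
      linarith
    exact_mod_cast e7
  · -- `y = k`: impossible
    exfalso
    rw [max_eq_right hka] at h
    obtain ⟨p1, p2⟩ := pi_bounds (k := k) (by omega)
    set t : ℝ := Real.log u - Real.log k with ht
    set P : ℝ := (Nat.primeCounting k : ℝ) with hP
    have hP0 : 0 ≤ P := Nat.cast_nonneg _
    have ht5 : 5 ≤ t := by
      rw [ht, ← Real.log_div huR.ne' (by linarith), Real.le_log_iff_exp_le (by positivity)]
      have h4 : Real.exp 5 ≤ 149 := by
        have h5 := Real.exp_one_lt_d9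
        calc Real.exp 5 = Real.exp 1 ^ 5 := by rw [← Real.exp_nat_mul]; norm_num
          _ ≤ (2.7182818286 : ℝ) ^ 5 := pow_le_pow_left₀ (Real.exp_pos 1).le h5.le 5
          _ ≤ 149 := by norm_num
      have h6 : (149 : ℝ) ≤ u / k := by
        rw [le_div_iff₀ (by linarith)]
        linarith
      linarith
    have e2 : P * Real.log w ≤ P * (t + 0.001 + Real.log k) :=
      mul_le_mul_of_nonneg_left (by linarith) hP0
    have e3 : P * (t + 0.001) ≤ (k : ℝ) / 40 * (t + 0.001) :=
      mul_le_mul_of_nonneg_right (by linarith) (by linarith)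
    have e4 : (k : ℝ) * t ≤ (k : ℝ) / 40 * (t + 0.001) + 3.8 * k := by
      have : P * (t + 0.001 + Real.log k) = P * (t + 0.001) + P * Real.log k := by ring
      linarith
    have e5 : (k : ℝ) * t ≤ k * (t / 40 + 3.9) := by nlinarith
    have e6 : t ≤ t / 40 + 3.9 := le_of_mul_le_mul_left e5 (by linarith)
    linarith

theorem jsmall : ∃ A0 : ℕ, ∀ a b s a' b' s' m : ℕ, Sol a b m s → Sol a' b' m s' → A0 ≤ a →
    a' < a → 200 ≤ s → 20 * (b - b') ≤ a ∧ 20 * (b' - b) ≤ a := by
  obtain ⟨B0, hB⟩ := near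
  refine ⟨max B0 (⌈Real.exp 152⌉₊ + 2), ?_⟩
  intro a b s a' b' s' m h h' hA haa h200
  have hab := h.hab
  have hab' := h'.hab
  have hA1 : B0 ≤ a := (le_max_left _ _).trans hA
  have hA2 : ⌈Real.exp 152⌉₊ + 2 ≤ a := (le_max_right _ _).trans hA
  obtain ⟨n1, n2⟩ := hB a b s a' b' s' m h h' (by omega)
  have ha1 : 1 ≤ a := by omega
  have haR : (0 : ℝ) < a := by exact_mod_cast ha1
  have hbR : (0 : ℝ) < b := by exact_mod_cast (by omega : 0 < b)
  have hT : 199 ≤ Real.log b - Real.log a := by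
    have hmq : (1 : ℚ) ≤ m := by exact_mod_cast h.hm
    have q1 : (1 : ℚ) / m ≤ 1 := by rw [div_le_one (by linarith)]; exact hmq
    have hsq : (200 : ℚ) ≤ s := by exact_mod_cast h200
    have h1 : (199 : ℚ) ≤ hs a b := by
      have := h.eq
      linarith
    have h1R : (199 : ℝ) ≤ ((hs a b : ℚ) : ℝ) := by exact_mod_cast h1
    have h2 := hs_le_log ha1 hab.le
    rw [Real.log_div hbR.ne' haR.ne'] at h2
    linarith
  have e1 := h.eq
  have e2 := h'.eq
  have f1 : hs 0 a + hs a b = hs 0 b := hs_add (Nat.zero_le a) hab.le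
  have f2 : hs 0 a' + hs a' b' = hs 0 b' := hs_add (Nat.zero_le a') hab'.le
  have f3 : hs 0 a' + hs a' a = hs 0 a := hs_add (Nat.zero_le a') haa.le
  rcases lt_trichotomy b b' with hbb | hbb | hbb
  · have f4 : hs 0 b + hs b b' = hs 0 b' := hs_add (Nat.zero_le b) hbb.le
    have heq : hs b b' = (((s' : ℤ) - s : ℤ) : ℚ) - hs a' a := by
      push_cast
      linarith
    have hc := core (Or.inr heq) hbb (by omega) hA2 (by linarith)
    omega
  · subst hbb
    omega
  · have f4 : hs 0 b' + hs b' b = hs 0 b := hs_add (Nat.zero_le b') hbb.le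
    have heq : hs b' b = (((s : ℤ) - s' : ℤ) : ℚ) + hs a' a := by
      push_cast
      linarith
    have hb'R : (0 : ℝ) < b' := by exact_mod_cast (by omega : 0 < b')
    have hl : Real.log b - Real.log b' ≤ 1 := by
      rw [← Real.log_div hbR.ne' hb'R.ne']
      have h1 := Real.log_le_sub_one_of_pos (x := (b : ℝ) / b') (by positivity)
      have h2 : (b : ℝ) / b' ≤ 2 := by
        rw [div_le_iff₀ hb'R]
        exact_mod_cast (by omega : b ≤ 2 * b')
      linarith
    have hc := core (Or.inl heq) hbb (by omega) hA2 (by linarith)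
    omega

end Pool.Agent.UMC
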