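import Pool.Agent.UMC.Key
import Pool.Agent.UMC.Near
import Pool.Agent.UMC.Many

/-!
Three members with the same `m`.
-/

set_option autoImplicit false

namespace Pool.Agent.UMC

open Pool.Agent.P30.UnitInterval

theorem ratio : ∃ A0 : ℕ, ∀ a b s a' b' s' m : ℕ, Sol a b m s → Sol a' b' m s' → A0 ≤ a → a' < a →
    200 ≤ s → 27 * a' ≤ 10 * a ∧ a ≤ b' ∧ 3000 * a ≤ b := by
  obtain ⟨A1, hA1⟩ := jsmall
  obtain ⟨B0, hB0⟩ := near
  obtain ⟨B1, hB1⟩ := gap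
  refine ⟨A1 + B0 + B1 + B1 + 1, ?_⟩
  intro a b s a' b' s' m h h' hA ha hs200
  have hab := h.hab
  obtain ⟨j1, j2⟩ := hA1 a b s a' b' s' m h h' (by omega) ha hs200
  obtain ⟨n1, n2⟩ := hB0 a b s a' b' s' m h h' (by omega)
  have hbig := UFM.a_small h (by omega)
  have hab' : a ≤ b' := by omega
  refine ⟨?_, hab', hbig⟩
  obtain ⟨u1, u2⟩ := rel h h' ha.le hab'
  have ha1 : 1 ≤ a := by omega
  have haQ : (1 : ℚ) ≤ a := by exact_mod_cast ha1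
  have hbQ : (3000 : ℚ) * a ≤ b := by exact_mod_cast hbig
  have hpos := hs_pos ha
  -- the sum over the interval between the maxima is small
  obtain ⟨δ, hδ, hδ0⟩ : ∃ δ : ℚ, hs a' a = ((s' : ℤ) - s : ℤ) + δ ∧ |δ| ≤ 1 / 1000 := by
    rcases Nat.le_total b b' with hb | hb
    · refine ⟨-hs b b', by rw [← u1 hb]; ring, ?_⟩
      rw [abs_neg, abs_of_nonneg (hs_nonneg _ _)]
      refine (hs_le hb).trans ?_
      have e1 : (b' : ℚ) - b ≤ a / 20 := by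
        have : 20 * b' ≤ 20 * b + a := by omega
        have e2 : (20 : ℚ) * b' ≤ 20 * b + a := by exact_mod_cast this
        linarith
      rw [div_le_iff₀ (by linarith)]
      linarith
    · refine ⟨hs b' b, by rw [← u2 hb]; ring, ?_⟩
      rw [abs_of_nonneg (hs_nonneg _ _)]
      refine (hs_le hb).trans ?_
      have : 20 * b ≤ 20 * b' + a := by omega
      have e2 : (20 : ℚ) * b ≤ 20 * b' + a := by exact_mod_cast this
      rw [div_le_iff₀ (by linarith)]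
      linarith
  rw [abs_le] at hδ0
  have ht0 : 0 ≤ (s' : ℤ) - s := by
    by_contra hc
    push Not at hc
    have h1 : ((s' : ℤ) - s : ℤ) ≤ (-1 : ℤ) := by omega
    have h2 : (((s' : ℤ) - s : ℤ) : ℚ) ≤ ((-1 : ℤ) : ℚ) := by exact_mod_cast h1
    push_cast at h2 hδ
    linarith [hδ0.2]
  have ht1 : 1 ≤ (s' : ℤ) - s := by
    by_contra hc
    push Not at hc
    have hss : s' = s := by omega
    subst hss
    rcases Nat.le_total b b' with hb | hb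
    · have := (hB1 a b m a' b' m s' (by omega) h h' hb (by omega)).1
      omega
    · have := (hB1 a' b' m a b m s' (by omega) h' h hb (by omega)).1
      omega
  have hge : (999 : ℚ) / 1000 ≤ hs a' a := by
    have h2 : ((1 : ℤ) : ℚ) ≤ (((s' : ℤ) - s : ℤ) : ℚ) := by exact_mod_cast ht1
    rw [hδ]
    push_cast at h2 ⊢
    linarith [hδ0.1]
  rcases Nat.eq_zero_or_pos a' with h0 | h0
  · omega
  · have h1 := hs_le_log h0 ha.le
    have h2 : (999 : ℝ) / 1000 ≤ ((hs a' a : ℚ) : ℝ) := by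
      have : (((999 : ℚ) / 1000 : ℚ) : ℝ) ≤ ((hs a' a : ℚ) : ℝ) := by exact_mod_cast hge
      push_cast at this
      exact this
    have ha'R : (0 : ℝ) < a' := by exact_mod_cast h0
    have haR : (0 : ℝ) < a := by exact_mod_cast ha1
    have h3 : Real.exp (999 / 1000) ≤ (a : ℝ) / a' := by
      rw [← Real.le_log_iff_exp_le (by positivity)]
      linarith
    have h4 : (2.7 : ℝ) ≤ Real.exp (999 / 1000) := by
      have e1 : Real.exp (999 / 1000) = Real.exp 1 * Real.exp (-(1 / 1000)) := by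
        rw [← Real.exp_add]
        norm_num
      have e2 := Real.add_one_le_exp (-(1 / 1000 : ℝ))
      have e3 := Real.exp_one_gt_d9
      rw [e1]
      nlinarith [Real.exp_pos 1]
    have h5 : (2.7 : ℝ) ≤ (a : ℝ) / a' := h4.trans h3
    rw [le_div_iff₀ ha'R] at h5
    have h6 : (27 : ℝ) * a' ≤ 10 * a := by linarith
    exact_mod_cast h6

theorem triple : ∃ A0 : ℕ, ∀ a1 b1 s1 a2 b2 s2 a3 b3 s3 m : ℕ, Sol a1 b1 m s1 → Sol a2 b2 m s2 →
    Sol a3 b3 m s3 → 200 ≤ s1 → 200 ≤ s2 → 200 ≤ s3 → A0 ≤ a3 → a3 < a2 → a2 < a1 → a3 ^ 6 ≤ a1 ^ 5 := by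
  obtain ⟨A1, hA1⟩ := jsmall
  obtain ⟨A2, hA2⟩ := ratio
  obtain ⟨A3, hA3⟩ := many
  refine ⟨A1 + A2 + A3 + 10, ?_⟩
  intro a1 b1 s1 a2 b2 s2 a3 b3 s3 m h1 h2 h3 k1 k2 k3 hA h32 h21
  obtain ⟨r1, r2, r3⟩ := hA2 a1 b1 s1 a2 b2 s2 m h1 h2 (by omega) h21 k1
  obtain ⟨r4, r5, r6⟩ := hA2 a2 b2 s2 a3 b3 s3 m h2 h3 (by omega) h32 k2
  obtain ⟨j1, j2⟩ := hA1 a1 b1 s1 a2 b2 s2 m h1 h2 (by omega) h21 k1
  obtain ⟨j3, j4⟩ := hA1 a2 b2 s2 a3 b3 s3 m h2 h3 (by omega) h32 k2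
  have h32' : a3 ^ 6 * 64 ≤ a2 ^ 6 := by
    have : (2 * a3) ^ 6 ≤ a2 ^ 6 := Nat.pow_le_pow_left (by omega) 6
    calc a3 ^ 6 * 64 = (2 * a3) ^ 6 := by ring
      _ ≤ _ := this
  by_cases hq : 4 * a1 ≤ a2 ^ 2
  · obtain ⟨T, hT⟩ : ∃ T, T = 2 * a1 / a2 := ⟨_, rfl⟩
    have hmany := hA3 a2 T (by omega) (by
      intro p hp hx1 hx2
      have hsq : a1 < p ^ 2 := by
        have e1 : a2 ^ 2 < (2 * p) ^ 2 := Nat.pow_lt_pow_left hx1 (by norm_num)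
        have e2 : (2 * p) ^ 2 = 4 * p ^ 2 := by ring
        omega
      obtain ⟨v, w, hv, hw, hd⟩ := key h1 h2 h3 hp (by omega) hx1 hx2 r1 hsq (by omega) (by omega) j1 j2 r2 r5
      refine ⟨v, w, hv, hw.trans ?_, hd⟩
      have e1 : a1 / p = 2 * a1 / (2 * p) := (Nat.mul_div_mul_left a1 p (by norm_num)).symm
      rw [e1, hT]
      exact Nat.div_le_div_left hx1.le (by omega))
    have e1 : a2 * T ≤ 2 * a1 := by rw [hT]; exact Nat.mul_div_le _ _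
    have e2 : (a2 * T) ^ 5 ≤ (2 * a1) ^ 5 := Nat.pow_le_pow_left e1 5
    have e3 : a2 ^ 6 ≤ (a2 * T) ^ 5 := by
      calc a2 ^ 6 = a2 ^ 5 * a2 := by ring
        _ ≤ a2 ^ 5 * T ^ 5 := Nat.mul_le_mul_left _ hmany
        _ = (a2 * T) ^ 5 := by ring
    have e4 : (2 * a1) ^ 5 = 32 * a1 ^ 5 := by ring
    omega
  · push Not at hq
    have e1 : (a2 ^ 2) ^ 5 ≤ (4 * a1) ^ 5 := Nat.pow_le_pow_left hq.le 5
    have e2 : (4 * a1) ^ 5 = 1024 * a1 ^ 5 := by ring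
    have e3 : (a2 ^ 2) ^ 5 = a2 ^ 6 * a2 ^ 4 := by ring
    have e4 : 16 ≤ a2 ^ 4 := by
      calc 16 = 2 ^ 4 := by norm_num
        _ ≤ a2 ^ 4 := Nat.pow_le_pow_left (by omega) 4
    have e5 : a3 ^ 6 * 64 * 16 ≤ a2 ^ 6 * a2 ^ 4 := Nat.mul_le_mul h32' e4
    omega

end Pool.Agent.UMC
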